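import Pool.Agent.H44.WL.Main

/-!
# Weak linkage, module FREE: the linkage theorem for ports
-/

set_option autoImplicit false

namespace Pool.Agent.H44.WL

open Finset Classical

/-- hub version of the conclusion -/
theorem of_hub {V E κ ι : Type} [Fintype V] [DecidableEq V] [Fintype E] [DecidableEq E]
    [Fintype ι] [DecidableEq ι] (src tgt : E → V) (z : V) (p : ι → V) (c : ι → κ)
    (h : ∀ S : Finset V, z ∉ S → pn p S ≤ cn src tgt univ S) :
    ∃ F : κ → Finset E, (∀ i i', i ≠ i' → Disjoint (F i) (F i')) ∧
      ∀ i (S : Finset V), (∀ x ∈ F i, ¬ Cr src tgt S x) → ∃ σ : Prop,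
        ∀ j, c j = i → (p j ∈ S ↔ σ) := by
  obtain ⟨F, h1, h2, h3⟩ := hub src tgt z _ univ rfl p h
  refine ⟨fun i => (univ.filter (fun a => c a = i)).biUnion F, ?_, ?_⟩
  · intro i i' hii
    rw [disjoint_biUnion_left]
    intro a ha
    rw [disjoint_biUnion_right]
    intro b hb
    apply h2
    intro hab
    subst hab
    simp only [mem_filter, mem_univ, true_and] at ha hb
    exact hii (ha.symm.trans hb)
  · intro i S hS
    refine ⟨z ∈ S, ?_⟩
    intro a ha
    constructor
    · intro h4
      by_contra h5
      obtain ⟨x, hx, hcx⟩ := h3 a S h4 h5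
      exact hS x (mem_biUnion.2 ⟨a, by simpa using ha, hx⟩) hcx
    · intro h4
      by_contra h5
      obtain ⟨x, hx, hcx⟩ := (h3 a).symm S h4 h5
      exact hS x (mem_biUnion.2 ⟨a, by simpa using ha, hx⟩) hcx

theorem pn_compl {V ι : Type} [Fintype V] [DecidableEq V] [Fintype ι] (p : ι → V)
    (S : Finset V) : pn p S + pn p Sᶜ = Fintype.card ι := by
  unfold pn
  have h : (univ.filter (fun j => p j ∈ Sᶜ)) = (univ.filter (fun j => p j ∈ S))ᶜ := by
    ext j
    simp
  rw [h, card_compl]
  have := card_le_univ (univ.filter (fun j => p j ∈ S))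
  omega

/-- **the linkage theorem for ports** -/
theorem free {E κ : Type} [Fintype E] [DecidableEq E] {K : ℕ} (hK : 1 ≤ K) :
    ∀ (n : ℕ) (V : Type) [Fintype V] [DecidableEq V], Fintype.card V = n →
    ∀ (src tgt : E → V), Gap K src tgt → NoTri K src tgt →
    ∀ (ι : Type) [Fintype ι] [DecidableEq ι] (p : ι → V) (c : ι → κ),
    (∀ v, pn p {v} ≤ K) → Fintype.card ι ≤ 2 * K →
    ∃ F : κ → Finset E, (∀ i i', i ≠ i' → Disjoint (F i) (F i')) ∧
      ∀ i (S : Finset V), (∀ x ∈ F i, ¬ Cr src tgt S x) → ∃ σ : Prop,
        ∀ j, c j = i → (p j ∈ S ↔ σ) := by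
  intro n
  induction n using Nat.strong_induction_on with
  | _ n ih =>
  intro V _ _ hn src tgt hg ht ι _ _ p c hp hι
  by_cases hκ : IsEmpty κ
  · exact ⟨fun _ => ∅, fun i => (hκ.false i).elim, fun i => (hκ.false i).elim⟩
  rw [not_isEmpty_iff] at hκ
  obtain ⟨k0⟩ := hκ
  have hpn_le : ∀ S : Finset V, pn p S ≤ 2 * K := by
    intro S
    exact (card_le_univ _).trans hι
  by_cases hno : ∀ Y : Finset V, 2 ≤ Y.card → 2 ≤ Yᶜ.card → cn src tgt univ Y ≠ K
  · -- a hub
    by_cases hc : Fintype.card V ≤ 2
    · by_cases hc0 : IsEmpty V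
      · refine ⟨fun _ => ∅, by simp, ?_⟩
        intro i S _
        exact ⟨True, fun j => (hc0.false (p j)).elim⟩
      rw [not_isEmpty_iff] at hc0
      obtain ⟨z⟩ := hc0
      apply of_hub src tgt z p c
      intro S hz
      by_cases hS : S = ∅
      · subst hS
        simp [pn]
      obtain ⟨a, ha⟩ := nonempty_iff_ne_empty.2 hS
      have haz : a ≠ z := fun h => hz (h ▸ ha)
      have hSa : S = {a} := by
        apply eq_of_superset_of_card_ge (by simpa using ha)
        have h1 : (insert z S).card ≤ Fintype.card V := card_le_univ _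
        rw [card_insert_of_notMem hz] at h1
        rw [card_singleton]
        omega
      rw [hSa]
      have h2 := hp a
      have h3 : ({a} : Finset V) ≠ univ := by
        intro h
        have : z ∈ ({a} : Finset V) := by
          rw [h]
          exact mem_univ _
        rw [mem_singleton] at this
        exact haz this.symm
      rcases hg {a} (singleton_nonempty a) h3 with h | h
      · omega
      · omega
    push Not at hc
    obtain ⟨z, hz⟩ := card_ge_three_big hK src tgt hg ht (by omega)
    apply of_hub src tgt z p c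
    intro S hzS
    by_cases hS : S = ∅
    · subst hS
      simp [pn]
    have hne := nonempty_iff_ne_empty.2 hS
    have hnu : S ≠ univ := by
      intro h
      apply hzS
      rw [h]
      exact mem_univ _
    rcases hg S hne hnu with h | h
    · by_cases h1 : S.card = 1
      · obtain ⟨a, ha⟩ := card_eq_one.1 h1
        rw [ha] at h ⊢
        have := hp a
        omega
      · have h2 : 2 ≤ S.card := by
          have := hne.card_pos
          omega
        by_cases h3 : 2 ≤ Sᶜ.card
        · exact absurd h (hno S h2 h3)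
        · have h4 : Sᶜ = {z} := by
            apply eq_of_superset_of_card_ge
            · intro y hy
              rw [mem_singleton] at hy
              subst hy
              simpa using hzS
            · rw [card_singleton]
              omega
          have h5 := cn_compl src tgt univ S
          rw [h4, h] at h5
          omega
    · exact (hpn_le S).trans h
  push Not at hno
  -- choose the side with few ports
  obtain ⟨Y, hY1, hY2, hYK, hYp⟩ : ∃ Y : Finset V, 2 ≤ Y.card ∧ 2 ≤ Yᶜ.card ∧
      cn src tgt univ Y = K ∧ pn p Y ≤ K := by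
    obtain ⟨Y, hY1, hY2, hYK⟩ := hno
    by_cases h : pn p Y ≤ K
    · exact ⟨Y, hY1, hY2, hYK, h⟩
    · refine ⟨Yᶜ, hY2, by rw [compl_compl]; exact hY1, by rw [cn_compl]; exact hYK, ?_⟩
      have := pn_compl p Y
      omega
  have hYne : Y.Nonempty := card_pos.1 (by omega)
  have hYcne : Yᶜ.Nonempty := card_pos.1 (by omega)
  obtain ⟨F2, hd2, hF2⟩ := ih _ (by rw [← hn]; exact card_out Y hY1)
    (Option {v : V // v ∉ Y}) rfl (out Y ∘ src) (out Y ∘ tgt) (hg.map _ (out_surj hYne))
    (ht.map _ (out_surj hYne)) ι (fun j => out Y (p j)) c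
    (by
      intro o
      cases o with
      | none =>
        refine le_trans (le_of_eq ?_) hYp
        unfold pn
        congr 1
        apply filter_congr
        intro j _
        rw [mem_singleton]
        by_cases h : p j ∈ Y
        · simp [out_pos h, h]
        · simp [out_neg h, h]
      | some v =>
        refine le_trans (le_of_eq ?_) (hp v.1)
        unfold pn
        congr 1
        apply filter_congr
        intro j _
        rw [mem_singleton, mem_singleton]
        show out Y (p j) = some v ↔ p j = v.1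
        by_cases h : p j ∈ Y
        · rw [out_pos h]
          constructor
          · intro h'
            simp at h'
          · intro h'
            exact absurd (h' ▸ h) v.2
        · rw [out_neg h]
          constructor
          · intro h'
            have := Option.some.inj h'
            rw [← this]
          · intro h'
            congr 1
            exact Subtype.ext h') hι
  let U1 : Finset E := univ.filter (fun x => Cr src tgt Y x ∧ ∃ i, x ∈ F2 i)
  let cU1 : E → κ := fun x => if h : ∃ i, x ∈ F2 i then h.choose else k0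
  have hcU1 : ∀ x i, x ∈ F2 i → cU1 x = i := by
    intro x i hx
    have h2 : ∃ i, x ∈ F2 i := ⟨i, hx⟩
    simp only [cU1, dif_pos h2]
    by_contra h3
    exact disjoint_left.1 (hd2 _ _ h3) h2.choose_spec hx
  have hpre1 : univ.filter (fun v => inn Y v ∈ ({none} : Finset (Option {v : V // v ∈ Y}))) =
      Yᶜ := by
    ext v
    simp only [mem_filter, mem_univ, true_and, mem_singleton, mem_compl]
    by_cases hv : v ∈ Y
    · rw [inn_pos hv]
      simp [hv]
    · rw [inn_neg hv]
      simp [hv]
  obtain ⟨F1, hd1, hroot1, hF1⟩ := rooted (κ := κ) hK _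
    (Option {v : V // v ∈ Y}) rfl (inn Y ∘ src) (inn Y ∘ tgt) (hg.map _ (inn_surj hYcne))
    (ht.map _ (inn_surj hYcne)) none (by rw [cn_map, hpre1, cn_compl]; exact hYK) U1
    (fun x hx => by
      rw [Cr_map, hpre1, Cr_compl]
      simp only [U1, mem_filter, mem_univ, true_and] at hx
      exact hx.1) cU1 {j // p j ∈ Y} (fun j => inn Y (p j.1)) (fun j => c j.1)
    (fun j => by rw [inn_pos j.2]; simp)
    (by
      rw [Fintype.card_subtype]
      exact hYp)
  have hF1Y : ∀ i, ∀ x ∈ F1 i, src x ∈ Y ∧ tgt x ∈ Y := by
    intro i x hx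
    have h1 := hroot1 i x hx
    simp only [Function.comp] at h1
    constructor
    · by_contra h
      exact h1.1 (inn_neg h)
    · by_contra h
      exact h1.2 (inn_neg h)
  have hoth1 : ∀ x, Cr src tgt Y x → ∀ v, v ∈ Y → (src x = v ∨ tgt x = v) →
      oth (inn Y ∘ src) (inn Y ∘ tgt) none x = inn Y v := by
    intro x hx v hv hxv
    unfold oth
    simp only [Function.comp]
    unfold Cr at hx
    by_cases h1 : src x ∈ Y
    · have h2 : tgt x ∉ Y := fun h => hx (by simp [h1, h])
      rw [inn_pos h1, if_neg (by simp)]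
      rcases hxv with h | h
      · subst h
        rw [inn_pos h1]
      · subst h
        exact absurd hv h2
    · rw [inn_neg h1, if_pos rfl]
      rcases hxv with h | h
      · subst h
        exact absurd hv h1
      · rw [h]
  refine ⟨fun i => (F2 i).filter (fun x => ¬ (src x ∈ Y ∧ tgt x ∈ Y)) ∪ F1 i, ?_, ?_⟩
  · intro i i' hii
    rw [disjoint_left]
    intro x hx hx'
    rw [mem_union, mem_filter] at hx hx'
    rcases hx with hx | hx <;> rcases hx' with hx' | hx'
    · exact disjoint_left.1 (hd2 i i' hii) hx.1 hx'.1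
    · exact hx.2 (hF1Y i' x hx')
    · exact hx'.2 (hF1Y i x hx)
    · exact disjoint_left.1 (hd1 i i' hii) hx hx'
  · intro i S hS
    obtain ⟨σ1, hσ1, hσ1'⟩ := hF1 i (restr Y S) (by
      intro x hx
      exact not_cr_restr (hF1Y i x hx).1 (hF1Y i x hx).2 (hS x (mem_union_right _ hx)))
    have hedge : ∀ x, Cr src tgt Y x → x ∈ F2 i → ∀ v, v ∈ Y →
        (src x = v ∨ tgt x = v) → (v ∈ S ↔ σ1) := by
      intro x hxY hx v hv hxv
      have h1 : x ∈ U1 := by
        simp only [U1, mem_filter, mem_univ, true_and]
        exact ⟨hxY, i, hx⟩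
      have h3 := hσ1' x h1 (hcU1 x i hx)
      rw [hoth1 x hxY v hv hxv, inn_mem_restr_pos hv] at h3
      exact h3
    obtain ⟨σ2, hσ2⟩ := hF2 i (lift Y S σ1) (by
      intro x hx
      apply not_cr_lift
      · intro h
        exact hS x (mem_union_left _ (mem_filter.2 ⟨hx, h⟩))
      · intro h1 h2
        exact hedge x (by unfold Cr; simp [h1, h2]) hx _ h1 (Or.inl rfl)
      · intro h1 h2
        exact hedge x (by unfold Cr; simp [h1, h2]) hx _ h2 (Or.inr rfl))
    refine ⟨σ2, ?_⟩
    intro j hj
    have h1 := hσ2 j hj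
    by_cases hjY : p j ∈ Y
    · rw [out_mem_lift_pos hjY] at h1
      have h2 := hσ1 ⟨j, hjY⟩ hj
      rw [inn_mem_restr_pos hjY] at h2
      exact h2.trans h1
    · rw [out_mem_lift_neg hjY] at h1
      exact h1

end Pool.Agent.H44.WL
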