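import Pool.Agent.H44.WL.Hub

/-!
# Weak linkage, module GAP: graphs all of whose cuts have exactly `K` or at least `2K` edges

`Gap K src tgt`: every cut has exactly `K` or at least `2K` edges.
`NoTri K src tgt`: the vertex set is not the union of three disjoint nonempty sets whose three
boundaries all have `K` edges (always true for odd `K`).
-/

set_option autoImplicit false

namespace Pool.Agent.H44.WL

open Finset

/-- every cut has exactly `K` or at least `2K` edges -/
def Gap {V E : Type} [Fintype V] [DecidableEq V] [Fintype E] (K : ℕ) (src tgt : E → V) : Prop :=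
  ∀ S : Finset V, S.Nonempty → S ≠ univ → cn src tgt univ S = K ∨ 2 * K ≤ cn src tgt univ S

/-- no partition into three parts with `K` boundary edges each -/
def NoTri {V E : Type} [Fintype V] [DecidableEq V] [Fintype E] (K : ℕ) (src tgt : E → V) : Prop :=
  ∀ A B : Finset V, A.Nonempty → B.Nonempty → (A ∪ B) ≠ univ → Disjoint A B →
    cn src tgt univ A = K → cn src tgt univ B = K → cn src tgt univ (A ∪ B) ≠ K

section basic

variable {V E : Type} [Fintype V] [DecidableEq V] [Fintype E] [DecidableEq E]

theorem cn_compl (src tgt : E → V) (A : Finset E) (S : Finset V) :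
    cn src tgt A Sᶜ = cn src tgt A S := by
  unfold cn
  congr 1
  apply filter_congr
  intro x _
  exact Cr_compl src tgt S x

/-- a map of the vertices; crossing is computed by preimages -/
theorem Cr_map {W : Type} [Fintype W] [DecidableEq W] (src tgt : E → V) (π : V → W)
    (S : Finset W) (x : E) :
    Cr (π ∘ src) (π ∘ tgt) S x ↔ Cr src tgt (univ.filter (fun v => π v ∈ S)) x := by
  unfold Cr
  simp

theorem cn_map {W : Type} [Fintype W] [DecidableEq W] (src tgt : E → V) (π : V → W)
    (A : Finset E) (S : Finset W) :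
    cn (π ∘ src) (π ∘ tgt) A S = cn src tgt A (univ.filter (fun v => π v ∈ S)) := by
  unfold cn
  congr 1
  apply filter_congr
  intro x _
  exact Cr_map src tgt π S x

theorem Gap.map {W : Type} [Fintype W] [DecidableEq W] {K : ℕ} {src tgt : E → V}
    (h : Gap K src tgt) (π : V → W) (hπ : Function.Surjective π) :
    Gap K (π ∘ src) (π ∘ tgt) := by
  intro S h1 h2
  rw [cn_map]
  apply h
  · obtain ⟨w, hw⟩ := h1
    obtain ⟨v, rfl⟩ := hπ w
    exact ⟨v, by simpa using hw⟩
  · intro h3
    apply h2
    rw [eq_univ_iff_forall] at h3 ⊢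
    intro w
    obtain ⟨v, rfl⟩ := hπ w
    have := h3 v
    simpa using this

theorem NoTri.map {W : Type} [Fintype W] [DecidableEq W] {K : ℕ} {src tgt : E → V}
    (h : NoTri K src tgt) (π : V → W) (hπ : Function.Surjective π) :
    NoTri K (π ∘ src) (π ∘ tgt) := by
  intro A B hA hB hAB hd h1 h2 h3
  rw [cn_map] at h1 h2 h3
  have hun : univ.filter (fun v => π v ∈ A ∪ B) =
      univ.filter (fun v => π v ∈ A) ∪ univ.filter (fun v => π v ∈ B) := by
    ext v
    simp
  rw [hun] at h3
  refine h _ _ ?_ ?_ ?_ ?_ h1 h2 h3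
  · obtain ⟨w, hw⟩ := hA
    obtain ⟨v, rfl⟩ := hπ w
    exact ⟨v, by simpa using hw⟩
  · obtain ⟨w, hw⟩ := hB
    obtain ⟨v, rfl⟩ := hπ w
    exact ⟨v, by simpa using hw⟩
  · intro h4
    apply hAB
    rw [← hun, eq_univ_iff_forall] at h4
    rw [eq_univ_iff_forall]
    intro w
    obtain ⟨v, rfl⟩ := hπ w
    have := h4 v
    simpa using this
  · rw [disjoint_left] at hd ⊢
    intro v hv hv'
    simp only [mem_filter, mem_univ, true_and] at hv hv'
    exact hd hv hv'

/-- the other end of an edge at `r` -/
def oth (src tgt : E → V) (r : V) (x : E) : V := if src x = r then tgt x else src x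

theorem oth_spec {src tgt : E → V} {r : V} {x : E} (h : Cr src tgt {r} x) :
    oth src tgt r x ≠ r ∧ ∀ S : Finset V, Cr src tgt S x ↔ ¬ (r ∈ S ↔ oth src tgt r x ∈ S) := by
  unfold Cr at h
  simp only [mem_singleton] at h
  unfold oth
  by_cases hs : src x = r
  · rw [if_pos hs]
    refine ⟨fun h' => h (by simp [hs, h']), fun S => ?_⟩
    unfold Cr
    rw [hs]
  · rw [if_neg hs]
    have ht : tgt x = r := by
      by_contra h'
      exact h (by simp [hs, h'])
    refine ⟨hs, fun S => ?_⟩
    unfold Cr
    rw [ht]
    tauto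

end basic

end Pool.Agent.H44.WL
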