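import Mathlib

/-!
# Weak linkage, module HUB: edge-disjoint connections of ports to a hub

Graphs are given by two functions `src tgt : E → V`.  `Cr src tgt S x`: the edge `x` crosses `S`.
If every set `S` that avoids the hub `z` is crossed by at least as many edges of `A` as it
contains ports, then there are disjoint sets of edges of `A` that connect the ports to `z`
(Menger's theorem in the language of cuts; proved by moving ports along edges).
-/

set_option autoImplicit false

namespace Pool.Agent.H44.WL

open Finset

variable {V E ι : Type} [Fintype V] [DecidableEq V] [Fintype E] [DecidableEq E]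
  [Fintype ι] [DecidableEq ι]

/-- the edge `x` has exactly one end in `S` -/
def Cr (src tgt : E → V) (S : Finset V) (x : E) : Prop := ¬ (src x ∈ S ↔ tgt x ∈ S)

instance (src tgt : E → V) (S : Finset V) (x : E) : Decidable (Cr src tgt S x) := by
  unfold Cr; infer_instance

/-- number of edges of `A` that cross `S` -/
def cn (src tgt : E → V) (A : Finset E) (S : Finset V) : ℕ := (A.filter (Cr src tgt S)).card

/-- number of ports in `S` -/
def pn (p : ι → V) (S : Finset V) : ℕ := (univ.filter (fun j => p j ∈ S)).card

/-- the set of edges `F` meets every cut between `a` and `b` -/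
def Lk (src tgt : E → V) (F : Finset E) (a b : V) : Prop :=
  ∀ S : Finset V, a ∈ S → b ∉ S → ∃ x ∈ F, Cr src tgt S x

theorem Cr_compl (src tgt : E → V) (S : Finset V) (x : E) :
    Cr src tgt Sᶜ x ↔ Cr src tgt S x := by
  unfold Cr
  simp only [mem_compl]
  tauto

theorem Lk.symm {src tgt : E → V} {F : Finset E} {a b : V} (h : Lk src tgt F a b) :
    Lk src tgt F b a := by
  intro S hb ha
  obtain ⟨x, hx, hc⟩ := h Sᶜ (by simpa using ha) (by simpa using hb)
  exact ⟨x, hx, (Cr_compl src tgt S x).1 hc⟩

theorem Lk.mono {src tgt : E → V} {F F' : Finset E} {a b : V} (h : Lk src tgt F a b)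
    (hF : F ⊆ F') : Lk src tgt F' a b := by
  intro S ha hb
  obtain ⟨x, hx, hc⟩ := h S ha hb
  exact ⟨x, hF hx, hc⟩

theorem Lk.trans {src tgt : E → V} {F F' : Finset E} {a b c : V} (h : Lk src tgt F a b)
    (h' : Lk src tgt F' b c) : Lk src tgt (F ∪ F') a c := by
  intro S ha hc
  by_cases hb : b ∈ S
  · obtain ⟨x, hx, h1⟩ := h' S hb hc
    exact ⟨x, mem_union_right _ hx, h1⟩
  · obtain ⟨x, hx, h1⟩ := h S ha hb
    exact ⟨x, mem_union_left _ hx, h1⟩

theorem Lk.refl (src tgt : E → V) (F : Finset E) (a : V) : Lk src tgt F a a := by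
  intro S h1 h2
  exact absurd h1 h2

theorem pn_modular (p : ι → V) (S Y : Finset V) :
    pn p S + pn p Y = pn p (S ∩ Y) + pn p (S ∪ Y) := by
  unfold pn
  simp only [card_filter]
  rw [← sum_add_distrib, ← sum_add_distrib]
  apply sum_congr rfl
  intro j _
  simp only [mem_inter, mem_union]
  by_cases h1 : p j ∈ S <;> by_cases h2 : p j ∈ Y <;> simp [h1, h2]

theorem cn_submod (src tgt : E → V) (A : Finset E) (S Y : Finset V) :
    cn src tgt A (S ∩ Y) + cn src tgt A (S ∪ Y) ≤ cn src tgt A S + cn src tgt A Y := by
  unfold cn
  simp only [card_filter]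
  rw [← sum_add_distrib, ← sum_add_distrib]
  apply sum_le_sum
  intro x _
  unfold Cr
  simp only [mem_inter, mem_union]
  by_cases h1 : src x ∈ S <;> by_cases h2 : src x ∈ Y <;> by_cases h3 : tgt x ∈ S <;>
    by_cases h4 : tgt x ∈ Y <;> simp [h1, h2, h3, h4]

theorem cn_submod_two (src tgt : E → V) (A : Finset E) (S Y : Finset V) (x : E) (hx : x ∈ A)
    (hS : Cr src tgt S x) (hY : Cr src tgt Y x) (hu : ¬ Cr src tgt (S ∪ Y) x)
    (hi : ¬ Cr src tgt (S ∩ Y) x) :
    cn src tgt A (S ∩ Y) + cn src tgt A (S ∪ Y) + 2 ≤ cn src tgt A S + cn src tgt A Y := by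
  have h1 := cn_submod src tgt (A.erase x) S Y
  have key : ∀ Z : Finset V, cn src tgt A Z = cn src tgt (A.erase x) Z +
      (if Cr src tgt Z x then 1 else 0) := by
    intro Z
    unfold cn
    conv_lhs => rw [← insert_erase hx]
    rw [filter_insert]
    split_ifs with h
    · rw [card_insert_of_notMem]
      simp
    · rfl
  rw [key, key, key, key, if_pos hS, if_pos hY, if_neg hu, if_neg hi]
  omega

/-- **the hub lemma** -/
theorem hub (src tgt : E → V) (z : V) : ∀ (n : ℕ) (A : Finset E), A.card = n → ∀ p : ι → V,
    (∀ S : Finset V, z ∉ S → pn p S ≤ cn src tgt A S) →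
    ∃ F : ι → Finset E, (∀ j, F j ⊆ A) ∧ (∀ i j, i ≠ j → Disjoint (F i) (F j)) ∧
      ∀ j, Lk src tgt (F j) (p j) z := by
  intro n
  induction n with
  | zero =>
    intro A hA p hp
    refine ⟨fun _ => ∅, by simp, by simp, ?_⟩
    intro j S h1 h2
    exfalso
    have h3 := hp S h2
    have h4 : cn src tgt A S = 0 := by
      rw [card_eq_zero] at hA
      subst hA
      simp [cn]
    have h5 : 0 < pn p S := by
      unfold pn
      exact card_pos.2 ⟨j, by simpa using h1⟩
    omega
  | succ n ih =>
    intro A hA p hp
    by_cases hall : ∀ j, p j = z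
    · refine ⟨fun _ => ∅, by simp, by simp, ?_⟩
      intro j
      rw [hall j]
      exact Lk.refl _ _ _ _
    by_cases hfree : ∃ x ∈ A, ∀ S : Finset V, z ∉ S → Cr src tgt S x →
        pn p S ≠ cn src tgt A S
    · obtain ⟨x, hx, hS⟩ := hfree
      obtain ⟨F, h1, h2, h3⟩ := ih (A.erase x) (by rw [card_erase_of_mem hx]; omega) p (by
        intro S hz
        have h1 := hp S hz
        have h2 : cn src tgt A S ≤ cn src tgt (A.erase x) S +
            (if Cr src tgt S x then 1 else 0) := by
          unfold cn
          conv_lhs => rw [← insert_erase hx]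
          rw [filter_insert]
          split_ifs with h
          · exact card_insert_le _ _
          · exact le_refl _
        by_cases hc : Cr src tgt S x
        · have h3 := hS S hz hc
          rw [if_pos hc] at h2
          omega
        · rw [if_neg hc] at h2
          omega)
      exact ⟨F, fun j => (h1 j).trans (erase_subset _ _), h2, h3⟩
    push Not at hfree hall
    -- a minimal tight set with a crossing edge
    have hex : ∃ k, ∃ S : Finset V, z ∉ S ∧ pn p S = cn src tgt A S ∧ 0 < cn src tgt A S ∧
        S.card = k := by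
      obtain ⟨j, hj⟩ := hall
      have h1 := hp {p j} (by simpa using fun h => hj h.symm)
      have h2 : 0 < pn p {p j} := by
        unfold pn
        exact card_pos.2 ⟨j, by simp⟩
      have h3 : 0 < cn src tgt A {p j} := by omega
      unfold cn at h3
      obtain ⟨x, hx⟩ := card_pos.1 h3
      rw [mem_filter] at hx
      obtain ⟨S, hS1, hS2, hS3⟩ := hfree x hx.1
      refine ⟨S.card, S, hS1, hS3, ?_, rfl⟩
      unfold cn
      exact card_pos.2 ⟨x, mem_filter.2 ⟨hx.1, hS2⟩⟩
    classical
    obtain ⟨S, hzS, htight, hpos, hcard⟩ := Nat.find_spec hex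
    have hmin : ∀ Y : Finset V, z ∉ Y → pn p Y = cn src tgt A Y → 0 < cn src tgt A Y →
        S.card ≤ Y.card := by
      intro Y h1 h2 h3
      rw [hcard]
      exact Nat.find_min' hex ⟨Y, h1, h2, h3, rfl⟩
    -- every edge with an end in `S` crosses `S`
    have hin : ∀ x ∈ A, src x ∈ S → tgt x ∈ S → False := by
      intro x hx h1 h2
      obtain ⟨Y, hY1, hY2, hY3⟩ := hfree x hx
      have h3 := cn_submod src tgt A S Y
      have h4 := pn_modular p S Y
      have hzi : z ∉ S ∩ Y := by simp [hzS]
      have hzu : z ∉ S ∪ Y := by simp [hzS, hY1]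
      have h5 := hp _ hzi
      have h6 := hp _ hzu
      have h7 : pn p (S ∩ Y) = cn src tgt A (S ∩ Y) := by omega
      have h8 : Cr src tgt (S ∩ Y) x := by
        unfold Cr at hY2 ⊢
        simp only [mem_inter, h1, h2, true_and]
        exact hY2
      have h9 : 0 < cn src tgt A (S ∩ Y) := card_pos.2 ⟨x, mem_filter.2 ⟨hx, h8⟩⟩
      have h10 := hmin _ hzi h7 h9
      have h11 : S ∩ Y = S := eq_of_subset_of_card_le inter_subset_left h10
      rw [h11] at h8
      unfold Cr at h8
      simp [h1, h2] at h8
    have hpos' : 0 < pn p S := by omega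
    obtain ⟨j, hj⟩ := card_pos.1 hpos'
    rw [mem_filter] at hj
    have hjS := hj.2
    have hjz : p j ≠ z := fun h => hzS (h ▸ hjS)
    have h1 := hp {p j} (by simpa using fun h => hjz h.symm)
    have h2 : 0 < pn p {p j} := card_pos.2 ⟨j, by simp⟩
    have h3 : 0 < cn src tgt A {p j} := by omega
    obtain ⟨x, hx⟩ := card_pos.1 h3
    rw [mem_filter] at hx
    obtain ⟨hxA, hxc⟩ := hx
    -- the other end
    have hw : ∃ w : V, w ∉ S ∧ ∀ Y : Finset V, Cr src tgt Y x ↔ ¬ (p j ∈ Y ↔ w ∈ Y) := by
      unfold Cr at hxc
      simp only [mem_singleton] at hxc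
      by_cases hs : src x = p j
      · refine ⟨tgt x, ?_, ?_⟩
        · intro h
          exact hin x hxA (hs ▸ hjS) h
        · intro Y
          unfold Cr
          rw [hs]
      · have ht : tgt x = p j := by
          by_contra h
          exact hxc ⟨fun h' => absurd h' hs, fun h' => absurd h' h⟩
        refine ⟨src x, ?_, ?_⟩
        · intro h
          exact hin x hxA h (ht ▸ hjS)
        · intro Y
          unfold Cr
          rw [ht]
          tauto
    obtain ⟨w, hwS, hw⟩ := hw
    let p' : ι → V := Function.update p j w
    have hcA : ∀ Z : Finset V, cn src tgt A Z = cn src tgt (A.erase x) Z +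
        (if Cr src tgt Z x then 1 else 0) := by
      intro Z
      unfold cn
      conv_lhs => rw [← insert_erase hxA]
      rw [filter_insert]
      split_ifs with h
      · rw [card_insert_of_notMem]
        simp
      · rfl
    have hpp : ∀ Z : Finset V, pn p' Z + (if p j ∈ Z then 1 else 0) =
        pn p Z + (if w ∈ Z then 1 else 0) := by
      intro Z
      unfold pn
      simp only [card_filter]
      rw [← add_sum_erase _ _ (mem_univ j), ← add_sum_erase _ (fun i => if p i ∈ Z then 1 else 0)
        (mem_univ j)]
      have hsum : ∑ i ∈ univ.erase j, (if p' i ∈ Z then 1 else 0) =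
          ∑ i ∈ univ.erase j, (if p i ∈ Z then 1 else 0) := by
        apply sum_congr rfl
        intro i hi
        rw [mem_erase] at hi
        simp [p', Function.update_of_ne hi.1]
      rw [hsum]
      have hpj : p' j = w := by simp [p']
      rw [hpj]
      omega
    obtain ⟨F, g1, g2, g3⟩ := ih (A.erase x) (by rw [card_erase_of_mem hxA]; omega) p' (by
      intro Y hzY
      have e1 := hcA Y
      have e2 := hpp Y
      have e3 := hp Y hzY
      have e4 := hw Y
      by_cases a1 : p j ∈ Y <;> by_cases a2 : w ∈ Y
      · have : ¬ Cr src tgt Y x := by rw [e4]; simp [a1, a2]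
        rw [if_neg this] at e1
        rw [if_pos a1, if_pos a2] at e2
        omega
      · have : Cr src tgt Y x := by rw [e4]; simp [a1, a2]
        rw [if_pos this] at e1
        rw [if_pos a1, if_neg a2] at e2
        omega
      · have hc : Cr src tgt Y x := by rw [e4]; simp [a1, a2]
        rw [if_pos hc] at e1
        rw [if_neg a1, if_pos a2] at e2
        have hcS : Cr src tgt S x := by rw [hw]; simp [hjS, hwS]
        have hcu : ¬ Cr src tgt (S ∪ Y) x := by rw [hw]; simp [hjS, a2]
        have hci : ¬ Cr src tgt (S ∩ Y) x := by rw [hw]; simp [hwS, a1]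
        have e5 := cn_submod_two src tgt A S Y x hxA hcS hc hcu hci
        have e6 := pn_modular p S Y
        have e7 := hp (S ∩ Y) (by simp [hzS])
        have e8 := hp (S ∪ Y) (by simp [hzS, hzY])
        omega
      · have : ¬ Cr src tgt Y x := by rw [e4]; simp [a1, a2]
        rw [if_neg this] at e1
        rw [if_neg a1, if_neg a2] at e2
        omega)
    refine ⟨Function.update F j (insert x (F j)), ?_, ?_, ?_⟩
    · intro i
      by_cases hi : i = j
      · subst hi
        rw [Function.update_self]
        exact insert_subset hxA ((g1 i).trans (erase_subset _ _))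
      · rw [Function.update_of_ne hi]
        exact (g1 i).trans (erase_subset _ _)
    · have hxF : ∀ i, x ∉ F i := fun i h => by simpa using g1 i h
      intro i i' hii
      by_cases hi : i = j
      · subst hi
        rw [Function.update_self, Function.update_of_ne (Ne.symm hii)]
        rw [disjoint_insert_left]
        exact ⟨hxF i', g2 i i' hii⟩
      · by_cases hi' : i' = j
        · subst hi'
          rw [Function.update_self, Function.update_of_ne hi]
          rw [disjoint_insert_right]
          exact ⟨hxF i, g2 i i' hii⟩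
        · rw [Function.update_of_ne hi, Function.update_of_ne hi']
          exact g2 i i' hii
    · intro i
      by_cases hi : i = j
      · subst hi
        rw [Function.update_self]
        intro Y h1 h2
        by_cases hwY : w ∈ Y
        · have h4 := g3 i Y (by simpa [p'] using hwY) h2
          obtain ⟨y, hy, hc⟩ := h4
          exact ⟨y, mem_insert_of_mem hy, hc⟩
        · exact ⟨x, mem_insert_self _ _, by rw [hw]; simp [h1, hwY]⟩
      · rw [Function.update_of_ne hi]
        have h4 := g3 i
        simp only [p', Function.update_of_ne hi] at h4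
        exact h4

end Pool.Agent.H44.WL
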