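import Pool.Agent.H44.WL.RP

/-!
# Weak linkage, module MAIN: induction over `K`-cuts
-/

set_option autoImplicit false

namespace Pool.Agent.H44.WL

open Finset Classical

theorem oth_map {V W E : Type} [DecidableEq V] [DecidableEq W] (src tgt : E → V) (π : V → W)
    (r : V) (hπ : ∀ v, π v = π r ↔ v = r) (x : E) :
    oth (π ∘ src) (π ∘ tgt) (π r) x = π (oth src tgt r x) := by
  unfold oth
  by_cases h : src x = r
  · rw [if_pos h, if_pos (by simp [h])]
    rfl
  · rw [if_neg h, if_neg (by simpa [hπ] using h)]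
    rfl

/-- **the rooted linkage theorem** -/
theorem rooted {E κ : Type} [Fintype E] [DecidableEq E] {K : ℕ} (hK : 1 ≤ K) :
    ∀ (n : ℕ) (V : Type) [Fintype V] [DecidableEq V], Fintype.card V = n →
    ∀ (src tgt : E → V), Gap K src tgt → NoTri K src tgt →
    ∀ r : V, cn src tgt univ {r} = K →
    ∀ (U : Finset E), (∀ x ∈ U, Cr src tgt {r} x) → ∀ (cU : E → κ),
    ∀ (ι : Type) [Fintype ι] [DecidableEq ι] (p : ι → V) (c : ι → κ),
    (∀ j, p j ≠ r) → Fintype.card ι ≤ K →
    ∃ F : κ → Finset E, (∀ i i', i ≠ i' → Disjoint (F i) (F i')) ∧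
      (∀ i, ∀ x ∈ F i, src x ≠ r ∧ tgt x ≠ r) ∧
      ∀ i (S : Finset V), (∀ x ∈ F i, ¬ Cr src tgt S x) → ∃ σ : Prop,
        (∀ j, c j = i → (p j ∈ S ↔ σ)) ∧
        (∀ x ∈ U, cU x = i → (oth src tgt r x ∈ S ↔ σ)) := by
  intro n
  induction n using Nat.strong_induction_on with
  | _ n ih =>
  intro V _ _ hn src tgt hg ht r hr U hU cU ι _ _ p c hp hι
  by_cases hno : ∀ Y : Finset V, r ∉ Y → 2 ≤ Y.card → 2 ≤ Yᶜ.card → cn src tgt univ Y ≠ K
  · exact rp_base hK src tgt hg ht r hr U hU cU p c hp hι hno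
  push Not at hno
  obtain ⟨Y, hrY, hY1, hY2, hYK⟩ := hno
  have hYne : Y.Nonempty := card_pos.1 (by omega)
  have hYcne : Yᶜ.Nonempty := card_pos.1 (by omega)
  -- the outer graph
  have hr2 : ∀ v, out Y v = out Y r ↔ v = r := by
    intro v
    constructor
    · intro h
      by_cases hv : v ∈ Y
      · rw [out_pos hv, out_neg hrY] at h
        simp at h
      · rw [out_neg hv, out_neg hrY] at h
        simpa using h
    · rintro rfl
      rfl
  have hpre : univ.filter (fun v => out Y v ∈ ({out Y r} : Finset _)) = {r} := by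
    ext v
    simp only [mem_filter, mem_univ, true_and, mem_singleton]
    exact hr2 v
  have hcr2 : ∀ x, Cr (out Y ∘ src) (out Y ∘ tgt) {out Y r} x ↔ Cr src tgt {r} x := by
    intro x
    rw [Cr_map, hpre]
  obtain ⟨F2, hd2, hroot2, hF2⟩ := ih _ (by rw [← hn]; exact card_out Y hY1)
    (Option {v : V // v ∉ Y}) rfl (out Y ∘ src) (out Y ∘ tgt) (hg.map _ (out_surj hYne))
    (ht.map _ (out_surj hYne)) (out Y r) (by rw [cn_map, hpre]; exact hr) U
    (fun x hx => (hcr2 x).2 (hU x hx)) cU ι (fun j => out Y (p j)) c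
    (fun j => by rw [Ne, hr2]; exact hp j) hι
  have hF2U : ∀ i, ∀ x ∈ F2 i, ¬ Cr src tgt {r} x := by
    intro i x hx h
    have h1 := hroot2 i x hx
    simp only [Function.comp, Ne, hr2] at h1
    unfold Cr at h
    simp [h1.1, h1.2] at h
  -- the inner graph
  let U1 : Finset E := univ.filter (fun x => Cr src tgt Y x ∧ (x ∈ U ∨ ∃ i, x ∈ F2 i))
  let cU1 : E → κ := fun x => if x ∈ U then cU x else
    if h : ∃ i, x ∈ F2 i then h.choose else cU x
  have hcU1 : ∀ x i, x ∈ F2 i → cU1 x = i := by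
    intro x i hx
    have h1 : x ∉ U := fun h => hF2U i x hx (hU x h)
    have h2 : ∃ i, x ∈ F2 i := ⟨i, hx⟩
    simp only [cU1, if_neg h1, dif_pos h2]
    by_contra h3
    exact disjoint_left.1 (hd2 _ _ h3) h2.choose_spec hx
  have hcU1' : ∀ x, x ∈ U → cU1 x = cU x := by
    intro x hx
    simp only [cU1, if_pos hx]
  have hpre1 : univ.filter (fun v => inn Y v ∈ ({none} : Finset (Option {v : V // v ∈ Y}))) =
      Yᶜ := by
    ext v
    simp only [mem_filter, mem_univ, true_and, mem_singleton, mem_compl]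
    by_cases hv : v ∈ Y
    · rw [inn_pos hv]
      simp [hv]
    · rw [inn_neg hv]
      simp [hv]
  obtain ⟨F1, hd1, hroot1, hF1⟩ := ih _ (by rw [← hn]; exact card_inn Y hY2)
    (Option {v : V // v ∈ Y}) rfl (inn Y ∘ src) (inn Y ∘ tgt) (hg.map _ (inn_surj hYcne))
    (ht.map _ (inn_surj hYcne)) none (by rw [cn_map, hpre1, cn_compl]; exact hYK) U1
    (fun x hx => by
      rw [Cr_map, hpre1, Cr_compl]
      simp only [U1, mem_filter, mem_univ, true_and] at hx
      exact hx.1) cU1 {j // p j ∈ Y} (fun j => inn Y (p j.1)) (fun j => c j.1)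
    (fun j => by rw [inn_pos j.2]; simp)
    ((Fintype.card_subtype_le _).trans hι)
  have hF1Y : ∀ i, ∀ x ∈ F1 i, src x ∈ Y ∧ tgt x ∈ Y := by
    intro i x hx
    have h1 := hroot1 i x hx
    simp only [Function.comp] at h1
    constructor
    · by_contra h
      exact h1.1 (inn_neg h)
    · by_contra h
      exact h1.2 (inn_neg h)
  have hoth1 : ∀ x, Cr src tgt Y x → ∀ v, v ∈ Y → (src x = v ∨ tgt x = v) →
      oth (inn Y ∘ src) (inn Y ∘ tgt) none x = inn Y v := by
    intro x hx v hv hxv
    unfold oth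
    simp only [Function.comp]
    unfold Cr at hx
    by_cases h1 : src x ∈ Y
    · have h2 : tgt x ∉ Y := fun h => hx (by simp [h1, h])
      rw [inn_pos h1, if_neg (by simp)]
      rcases hxv with h | h
      · subst h
        rw [inn_pos h1]
      · subst h
        exact absurd hv h2
    · rw [inn_neg h1, if_pos rfl]
      rcases hxv with h | h
      · subst h
        exact absurd hv h1
      · rw [h]
  refine ⟨fun i => (F2 i).filter (fun x => ¬ (src x ∈ Y ∧ tgt x ∈ Y)) ∪ F1 i, ?_, ?_, ?_⟩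
  · intro i i' hii
    rw [disjoint_left]
    intro x hx hx'
    rw [mem_union, mem_filter] at hx hx'
    rcases hx with hx | hx <;> rcases hx' with hx' | hx'
    · exact disjoint_left.1 (hd2 i i' hii) hx.1 hx'.1
    · exact hx.2 (hF1Y i' x hx')
    · exact hx'.2 (hF1Y i x hx)
    · exact disjoint_left.1 (hd1 i i' hii) hx hx'
  · intro i x hx
    rw [mem_union, mem_filter] at hx
    rcases hx with hx | hx
    · have h1 := hroot2 i x hx.1
      simp only [Function.comp, Ne, hr2] at h1
      exact h1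
    · have h1 := hF1Y i x hx
      exact ⟨fun h => hrY (h ▸ h1.1), fun h => hrY (h ▸ h1.2)⟩
  · intro i S hS
    obtain ⟨σ1, hσ1, hσ1'⟩ := hF1 i (restr Y S) (by
      intro x hx
      exact not_cr_restr (hF1Y i x hx).1 (hF1Y i x hx).2 (hS x (mem_union_right _ hx)))
    have hedge : ∀ x, Cr src tgt Y x → (x ∈ F2 i ∨ (x ∈ U ∧ cU x = i)) → ∀ v, v ∈ Y →
        (src x = v ∨ tgt x = v) → (v ∈ S ↔ σ1) := by
      intro x hxY hx v hv hxv
      have h1 : x ∈ U1 := by
        simp only [U1, mem_filter, mem_univ, true_and]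
        refine ⟨hxY, ?_⟩
        rcases hx with hx | hx
        · exact Or.inr ⟨i, hx⟩
        · exact Or.inl hx.1
      have h2 : cU1 x = i := by
        rcases hx with hx | hx
        · exact hcU1 x i hx
        · rw [hcU1' x hx.1]
          exact hx.2
      have h3 := hσ1' x h1 h2
      rw [hoth1 x hxY v hv hxv, inn_mem_restr_pos hv] at h3
      exact h3
    obtain ⟨σ2, hσ2, hσ2'⟩ := hF2 i (lift Y S σ1) (by
      intro x hx
      apply not_cr_lift
      · intro h
        exact hS x (mem_union_left _ (mem_filter.2 ⟨hx, h⟩))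
      · intro h1 h2
        exact hedge x (by unfold Cr; simp [h1, h2]) (Or.inl hx) _ h1 (Or.inl rfl)
      · intro h1 h2
        exact hedge x (by unfold Cr; simp [h1, h2]) (Or.inl hx) _ h2 (Or.inr rfl))
    refine ⟨σ2, ?_, ?_⟩
    · intro j hj
      have h1 := hσ2 j hj
      by_cases hjY : p j ∈ Y
      · rw [out_mem_lift_pos hjY] at h1
        have h2 := hσ1 ⟨j, hjY⟩ hj
        rw [inn_mem_restr_pos hjY] at h2
        exact h2.trans h1
      · rw [out_mem_lift_neg hjY] at h1
        exact h1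
    · intro x hx hxi
      have h1 := hσ2' x hx hxi
      rw [oth_map src tgt (out Y) r hr2 x] at h1
      obtain ⟨h3, h4⟩ := oth_spec (hU x hx)
      by_cases hw : oth src tgt r x ∈ Y
      · rw [out_mem_lift_pos hw] at h1
        have h2 := hedge x (by rw [h4]; simp [hrY, hw]) (Or.inr ⟨hx, hxi⟩) _ hw (by
          unfold oth
          split_ifs
          · exact Or.inr rfl
          · exact Or.inl rfl)
        exact h2.trans h1
      · rw [out_mem_lift_neg hw] at h1
        exact h1

end Pool.Agent.H44.WL
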