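import Pool.Agent.H44.WL.Rooted

/-!
# Weak linkage, module RP: the rooted linkage theorem
-/

set_option autoImplicit false

namespace Pool.Agent.H44.WL

open Finset Classical

/-- the base case of the rooted theorem -/
theorem rp_base {V E κ ι : Type} [Fintype V] [DecidableEq V] [Fintype E] [DecidableEq E]
    [Fintype ι] [DecidableEq ι] {K : ℕ} (hK : 1 ≤ K) (src tgt : E → V)
    (hg : Gap K src tgt) (ht : NoTri K src tgt) (r : V) (hr : cn src tgt univ {r} = K)
    (U : Finset E) (hU : ∀ x ∈ U, Cr src tgt {r} x) (cU : E → κ) (p : ι → V) (c : ι → κ)
    (hp : ∀ j, p j ≠ r) (hι : Fintype.card ι ≤ K)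
    (hno : ∀ Y : Finset V, r ∉ Y → 2 ≤ Y.card → 2 ≤ Yᶜ.card → cn src tgt univ Y ≠ K) :
    ∃ F : κ → Finset E, (∀ i i', i ≠ i' → Disjoint (F i) (F i')) ∧
      (∀ i, ∀ x ∈ F i, src x ≠ r ∧ tgt x ≠ r) ∧
      ∀ i (S : Finset V), (∀ x ∈ F i, ¬ Cr src tgt S x) → ∃ σ : Prop,
        (∀ j, c j = i → (p j ∈ S ↔ σ)) ∧
        (∀ x ∈ U, cU x = i → (oth src tgt r x ∈ S ↔ σ)) := by
  by_cases hc : Fintype.card V ≤ 2
  · refine ⟨fun _ => ∅, by simp, by simp, ?_⟩
    intro i S _
    have huni : ∀ a b : V, a ≠ r → b ≠ r → a = b := by
      intro a b ha hb
      by_contra hab
      have h3 : ({a, b, r} : Finset V).card = 3 := by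
        rw [card_insert_of_notMem, card_insert_of_notMem, card_singleton]
        · simpa using hb
        · simp [hab, ha]
      have := card_le_univ ({a, b, r} : Finset V)
      omega
    refine ⟨∃ v, v ≠ r ∧ v ∈ S, ?_, ?_⟩
    · intro j _
      constructor
      · intro h
        exact ⟨_, hp j, h⟩
      · rintro ⟨v, h1, h2⟩
        rw [huni (p j) v (hp j) h1]
        exact h2
    · intro x hx _
      have h1 := (oth_spec (hU x hx)).1
      constructor
      · intro h
        exact ⟨_, h1, h⟩
      · rintro ⟨v, h2, h3⟩
        rw [huni _ v h1 h2]
        exact h3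
  push Not at hc
  obtain ⟨z, hz⟩ := card_ge_three_big hK src tgt hg ht (by omega)
  have hzr : z ≠ r := by
    intro h
    rw [h] at hz
    omega
  let A : Finset E := univ.filter (fun x => src x ≠ r ∧ tgt x ≠ r)
  let q : ι ⊕ {x // x ∈ U} → V := Sum.elim p (fun x => oth src tgt r x.1)
  have hq : ∀ a, q a ≠ r := by
    rintro (j | x)
    · exact hp j
    · exact (oth_spec (hU x.1 x.2)).1
  have hcond : ∀ S : Finset V, z ∉ S → pn q S ≤ cn src tgt A S := by
    intro S0 hz0
    -- remove the root
    have hpn : pn q S0 = pn q (S0.erase r) := by
      unfold pn
      congr 1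
      apply filter_congr
      intro a _
      simp [hq a]
    have hcn : cn src tgt A S0 = cn src tgt A (S0.erase r) := by
      unfold cn
      congr 1
      apply filter_congr
      intro x hx
      have hx' : src x ≠ r ∧ tgt x ≠ r := by simpa [A] using hx
      unfold Cr
      simp [hx'.1, hx'.2]
    rw [hpn, hcn]
    set S := S0.erase r with hS
    have hrS : r ∉ S := by simp [hS]
    have hzS : z ∉ S := by
      intro h
      exact hz0 (mem_of_mem_erase h)
    clear_value S
    by_cases hemp : S = ∅
    · subst hemp
      simp [pn]
    have hne : S.Nonempty := nonempty_iff_ne_empty.2 hemp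
    -- the edges at the root
    let R1 : Finset E := univ.filter (fun x => Cr src tgt {r} x ∧ oth src tgt r x ∈ S)
    let R2 : Finset E := univ.filter (fun x => Cr src tgt {r} x ∧ oth src tgt r x ∉ S)
    have hR : R1.card + R2.card = K := by
      rw [← hr]
      unfold cn
      rw [← card_union_of_disjoint]
      · congr 1
        ext x
        simp only [R1, R2, mem_union, mem_filter, mem_univ, true_and]
        constructor
        · rintro (h | h)
          · exact h.1
          · exact h.1
        · intro h
          by_cases h' : oth src tgt r x ∈ S
          · exact Or.inl ⟨h, h'⟩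
          · exact Or.inr ⟨h, h'⟩
      · rw [disjoint_left]
        intro x h1 h2
        simp only [R1, R2, mem_filter, mem_univ, true_and] at h1 h2
        exact h2.2 h1.2
    have hcr2 : cn src tgt univ (insert r S) ≤ cn src tgt A S + R2.card := by
      unfold cn
      rw [← card_union_of_disjoint]
      · apply card_le_card
        intro x hx
        simp only [mem_filter, mem_univ, true_and, mem_union, A, R2] at hx ⊢
        by_cases h1 : src x = r
        · right
          by_cases h2 : tgt x = r
          · exfalso
            unfold Cr at hx
            simp [h1, h2] at hx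
          · have h3 : Cr src tgt {r} x := by
              unfold Cr
              simp [h1, h2]
            refine ⟨h3, ?_⟩
            rw [oth, if_pos h1]
            intro h4
            unfold Cr at hx
            simp [h1, h4] at hx
        · by_cases h2 : tgt x = r
          · right
            have h3 : Cr src tgt {r} x := by
              unfold Cr
              simp [h1, h2]
            refine ⟨h3, ?_⟩
            rw [oth, if_neg h1]
            intro h4
            unfold Cr at hx
            simp [h2, h4] at hx
          · left
            refine ⟨⟨h1, h2⟩, ?_⟩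
            unfold Cr at hx ⊢
            simpa [h1, h2] using hx
      · rw [disjoint_left]
        intro x h1 h2
        simp only [mem_filter, mem_univ, true_and, A, R2] at h1 h2
        obtain ⟨h3, h4⟩ := h2
        unfold Cr at h3
        simp [h1.1.1, h1.1.2] at h3
    have hbig : 2 * K ≤ cn src tgt univ (insert r S) := by
      have hnu : insert r S ≠ univ := by
        intro h
        have : z ∈ insert r S := by
          rw [h]
          exact mem_univ _
        rw [mem_insert] at this
        rcases this with h' | h'
        · exact hzr h'
        · exact hzS h'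
      rcases hg (insert r S) (insert_nonempty _ _) hnu with h | h
      · exfalso
        have hcc : 2 ≤ (insert r S).card := by
          rw [card_insert_of_notMem hrS]
          have := hne.card_pos
          omega
        by_cases h2 : 2 ≤ (insert r S)ᶜ.card
        · refine hno (insert r S)ᶜ (by simp) h2 (by rw [compl_compl]; exact hcc) ?_
          rw [cn_compl]
          exact h
        · have h3 : (insert r S)ᶜ = {z} := by
            apply eq_of_superset_of_card_ge
            · intro y hy
              rw [mem_singleton] at hy
              subst hy
              simp [hzr, hzS]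
            · rw [card_singleton]
              omega
          have h4 := cn_compl src tgt univ (insert r S)
          rw [h3, h] at h4
          omega
      · exact h
    have hports : pn q S ≤ K + R1.card := by
      unfold pn
      have h1 : (univ.filter (fun a => q a ∈ S)).card ≤
          (univ.filter (fun j => p j ∈ S)).card +
          (univ.filter (fun x : {x // x ∈ U} => oth src tgt r x.1 ∈ S)).card := by
        rw [← card_disjSum]
        apply card_le_card_of_injOn (fun a => a)
        · intro a ha
          have ha' : q a ∈ S := by simpa using ha
          rcases a with j | x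
          · simpa [q] using ha'
          · simpa [q] using ha'
        · intro a _ b _ h
          exact h
      have h2 : (univ.filter (fun j => p j ∈ S)).card ≤ K := by
        refine (card_le_univ _).trans ?_
        exact hι
      have h3 : (univ.filter (fun x : {x // x ∈ U} => oth src tgt r x.1 ∈ S)).card ≤
          R1.card := by
        apply card_le_card_of_injOn (fun x => x.1)
        · intro x hx
          have hx' : oth src tgt r x.1 ∈ S := by simpa using hx
          simp only [R1, coe_filter, mem_univ, true_and, Set.mem_setOf_eq]
          exact ⟨hU x.1 x.2, hx'⟩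
        · intro a _ b _ h
          exact Subtype.ext h
      omega
    omega
  obtain ⟨F, h1, h2, h3⟩ := hub src tgt z A.card A rfl q hcond
  let cl : ι ⊕ {x // x ∈ U} → κ := Sum.elim c (fun x => cU x.1)
  refine ⟨fun i => (univ.filter (fun a => cl a = i)).biUnion F, ?_, ?_, ?_⟩
  · intro i i' hii
    rw [disjoint_biUnion_left]
    intro a ha
    rw [disjoint_biUnion_right]
    intro b hb
    apply h2
    intro hab
    subst hab
    simp only [mem_filter, mem_univ, true_and] at ha hb
    exact hii (ha.symm.trans hb)
  · intro i x hx
    rw [mem_biUnion] at hx
    obtain ⟨a, _, hx⟩ := hx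
    have := h1 a hx
    simpa [A] using this
  · intro i S hS
    have key : ∀ a, cl a = i → (q a ∈ S ↔ z ∈ S) := by
      intro a ha
      constructor
      · intro h4
        by_contra h5
        obtain ⟨x, hx, hcx⟩ := h3 a S h4 h5
        exact hS x (mem_biUnion.2 ⟨a, by simpa using ha, hx⟩) hcx
      · intro h4
        by_contra h5
        obtain ⟨x, hx, hcx⟩ := (h3 a).symm S h4 h5
        exact hS x (mem_biUnion.2 ⟨a, by simpa using ha, hx⟩) hcx
    refine ⟨z ∈ S, ?_, ?_⟩
    · intro j hj
      exact key (Sum.inl j) hj
    · intro x hx hxi
      exact key (Sum.inr ⟨x, hx⟩) hxi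

end Pool.Agent.H44.WL
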