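import Pool.Agent.H44.WL.Gap

/-!
# Weak linkage, module ROOTED: contraction of a `K`-cut and the rooted linkage theorem
-/

set_option autoImplicit false

namespace Pool.Agent.H44.WL

open Finset Classical

section contraction

variable {V E : Type} [Fintype V] [DecidableEq V] [Fintype E] [DecidableEq E]

/-- contraction of `Y` to the point `none` -/
def out (Y : Finset V) (v : V) : Option {v : V // v ∉ Y} := if h : v ∈ Y then none else some ⟨v, h⟩

/-- contraction of the complement of `Y` to the point `none` -/
def inn (Y : Finset V) (v : V) : Option {v : V // v ∈ Y} := if h : v ∈ Y then some ⟨v, h⟩ else none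

theorem out_pos {Y : Finset V} {v : V} (h : v ∈ Y) : out Y v = none := by simp [out, h]
theorem out_neg {Y : Finset V} {v : V} (h : v ∉ Y) : out Y v = some ⟨v, h⟩ := by simp [out, h]
theorem inn_pos {Y : Finset V} {v : V} (h : v ∈ Y) : inn Y v = some ⟨v, h⟩ := by simp [inn, h]
theorem inn_neg {Y : Finset V} {v : V} (h : v ∉ Y) : inn Y v = none := by simp [inn, h]

theorem out_surj {Y : Finset V} (h : Y.Nonempty) : Function.Surjective (out Y) := by
  intro o
  cases o with
  | none => exact ⟨h.choose, out_pos h.choose_spec⟩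
  | some v => exact ⟨v.1, out_neg v.2⟩

theorem inn_surj {Y : Finset V} (h : Yᶜ.Nonempty) : Function.Surjective (inn Y) := by
  intro o
  cases o with
  | none => exact ⟨h.choose, inn_neg (by simpa using h.choose_spec)⟩
  | some v => exact ⟨v.1, inn_pos v.2⟩

theorem card_out (Y : Finset V) (h : 2 ≤ Y.card) :
    Fintype.card (Option {v : V // v ∉ Y}) < Fintype.card V := by
  rw [Fintype.card_option, Fintype.card_subtype_compl, Fintype.card_coe]
  have := card_le_univ Y
  omega

theorem card_inn (Y : Finset V) (h : 2 ≤ Yᶜ.card) :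
    Fintype.card (Option {v : V // v ∈ Y}) < Fintype.card V := by
  rw [Fintype.card_option, Fintype.card_coe]
  rw [card_compl] at h
  omega

theorem card_ge_three_big {K : ℕ} (hK : 1 ≤ K) (src tgt : E → V) (hg : Gap K src tgt)
    (ht : NoTri K src tgt) (hc : 3 ≤ Fintype.card V) : ∃ z : V, 2 * K ≤ cn src tgt univ {z} := by
  by_contra hno
  push Not at hno
  have hne : ∀ v : V, ({v} : Finset V) ≠ univ := by
    intro v h
    have := congrArg card h
    rw [card_singleton, card_univ] at this
    omega
  have hdeg : ∀ v : V, cn src tgt univ {v} = K := by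
    intro v
    rcases hg {v} (singleton_nonempty v) (hne v) with h | h
    · exact h
    · exact absurd h (by have := hno v; omega)
  obtain ⟨a⟩ : Nonempty V := Fintype.card_pos_iff.1 (by omega)
  have ha := hdeg a
  obtain ⟨x, hx⟩ : (univ.filter (Cr src tgt {a})).Nonempty := by
    apply card_pos.1
    unfold cn at ha
    omega
  rw [mem_filter] at hx
  obtain ⟨hb, hcr⟩ := oth_spec hx.2
  set b := oth src tgt a x with hbdef
  have hb' := hdeg b
  have hne2 : ({a} ∪ {b} : Finset V) ≠ univ := by
    intro h
    have := congrArg card h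
    rw [card_univ] at this
    have h2 : ({a} ∪ {b} : Finset V).card ≤ 2 := card_union_le _ _
    omega
  have h1 := cn_submod_two src tgt univ {a} {b} x (mem_univ _) hx.2
    (by rw [hcr]; simp [Ne.symm hb]) (by rw [hcr]; simp) (by rw [hcr]; simp [hb, Ne.symm hb])
  have h3 := ht {a} {b} (singleton_nonempty _) (singleton_nonempty _) hne2
    (by simpa using Ne.symm hb) ha hb'
  rcases hg ({a} ∪ {b}) (by simp) hne2 with h | h
  · exact h3 h
  · omega

/-- the set of the contracted graph that agrees with `S` outside `Y` and with `σ` on `Y` -/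
noncomputable def lift (Y S : Finset V) (σ : Prop) : Finset (Option {v : V // v ∉ Y}) :=
  univ.filter (fun o => match o with
    | none => σ
    | some v => v.1 ∈ S)

theorem mem_lift_none {Y S : Finset V} {σ : Prop} : none ∈ lift Y S σ ↔ σ := by simp [lift]

theorem mem_lift_some {Y S : Finset V} {σ : Prop} (v : {v : V // v ∉ Y}) :
    some v ∈ lift Y S σ ↔ v.1 ∈ S := by simp [lift]

theorem out_mem_lift_pos {Y S : Finset V} {σ : Prop} {v : V} (h : v ∈ Y) :
    out Y v ∈ lift Y S σ ↔ σ := by rw [out_pos h, mem_lift_none]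

theorem out_mem_lift_neg {Y S : Finset V} {σ : Prop} {v : V} (h : v ∉ Y) :
    out Y v ∈ lift Y S σ ↔ v ∈ S := by rw [out_neg h, mem_lift_some]

/-- the part of `S` inside `Y` -/
noncomputable def restr (Y S : Finset V) : Finset (Option {v : V // v ∈ Y}) :=
  univ.filter (fun o => match o with
    | none => False
    | some v => v.1 ∈ S)

theorem inn_mem_restr_pos {Y S : Finset V} {v : V} (h : v ∈ Y) :
    inn Y v ∈ restr Y S ↔ v ∈ S := by
  rw [inn_pos h]
  simp [restr]

/-- edges of the inner graph -/
theorem not_cr_restr {src tgt : E → V} {Y S : Finset V} {x : E} (h1 : src x ∈ Y) (h2 : tgt x ∈ Y)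
    (h : ¬ Cr src tgt S x) : ¬ Cr (inn Y ∘ src) (inn Y ∘ tgt) (restr Y S) x := by
  unfold Cr at h ⊢
  simp only [Function.comp, inn_mem_restr_pos h1, inn_mem_restr_pos h2]
  exact h

/-- edges of the outer graph -/
theorem not_cr_lift {src tgt : E → V} {Y S : Finset V} {σ : Prop} {x : E}
    (h : ¬ (src x ∈ Y ∧ tgt x ∈ Y) → ¬ Cr src tgt S x)
    (hs : src x ∈ Y → tgt x ∉ Y → (src x ∈ S ↔ σ))
    (ht : src x ∉ Y → tgt x ∈ Y → (tgt x ∈ S ↔ σ)) :
    ¬ Cr (out Y ∘ src) (out Y ∘ tgt) (lift Y S σ) x := by
  unfold Cr at h ⊢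
  by_cases h1 : src x ∈ Y <;> by_cases h2 : tgt x ∈ Y
  · simp only [Function.comp, out_mem_lift_pos h1, out_mem_lift_pos h2]
    tauto
  · simp only [Function.comp, out_mem_lift_pos h1, out_mem_lift_neg h2]
    have := h (fun h' => h2 h'.2)
    have := hs h1 h2
    tauto
  · simp only [Function.comp, out_mem_lift_neg h1, out_mem_lift_pos h2]
    have := h (fun h' => h1 h'.1)
    have := ht h1 h2
    tauto
  · simp only [Function.comp, out_mem_lift_neg h1, out_mem_lift_neg h2]
    exact h (fun h' => h1 h'.1)

end contraction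

end Pool.Agent.H44.WL
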